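import Mathlib

/-!
# Places of a function field, abstractly

`PlaceData k K` packages what we need about the places of a function field `K` with constant
field `k` (of any characteristic) : additive valuations `ord`, positive weights, an inequality form of
the product formula, and a derivation which lowers orders by a controlled amount.
-/

namespace Pool.Agent.V7H78.RP.UB

open Finset

universe w

/-- Valuation data on a field extension `K / k` (a function field and its constant field). -/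
structure PlaceData (k K : Type*) [Field k] [Field K] [Algebra k K] where
  /-- the places -/
  Pl : Type w
  /-- the order of vanishing (junk at `0`) -/
  ord : Pl → K → ℤ
  /-- the degree of a place -/
  wt : Pl → ℤ
  wt_nonneg : ∀ v, 0 ≤ wt v
  wt_one : ∀ v, 1 ≤ wt v
  ord_mul : ∀ v x y, x ≠ 0 → y ≠ 0 → ord v (x * y) = ord v x + ord v y
  ord_add : ∀ v x y (m : ℤ), x ≠ 0 → y ≠ 0 → x + y ≠ 0 → m ≤ ord v x → m ≤ ord v y →
    m ≤ ord v (x + y)
  ord_alg : ∀ v (c : k), c ≠ 0 → ord v (algebraMap k K c) = 0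
  /-- a nonzero element has finitely many zeros and poles -/
  fin : ∀ x, x ≠ 0 → {v | ord v x ≠ 0}.Finite
  /-- the product formula, as an inequality -/
  prod_formula : ∀ x, x ≠ 0 → ∀ S : Finset Pl, (∀ v, v ∉ S → 0 ≤ ord v x) →
    ∑ v ∈ S, wt v * ord v x ≤ 0
  /-- elements without poles are constants -/
  const : ∀ x, x ≠ 0 → (∀ v, 0 ≤ ord v x) → ∃ c : k, algebraMap k K c = x
  /-- the derivation -/
  D : Derivation k K K
  /-- the loss of the derivation at a place -/
  loss : Pl → ℤ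
  loss_nonneg : ∀ v, 0 ≤ loss v
  /-- the places with loss -/
  lossS : Finset Pl
  loss_supp : ∀ v, v ∉ lossS → loss v = 0
  /-- a bound for the total loss -/
  lossT : ℤ
  loss_sum : ∑ v ∈ lossS, wt v * loss v ≤ lossT
  D_ord : ∀ v x (j : ℕ) (m : ℤ), x ≠ 0 → (D^[j]) x ≠ 0 → m ≤ ord v x →
    m - j - j * loss v ≤ ord v ((D^[j]) x)
  D_ord' : ∀ v x (j : ℕ), x ≠ 0 → (D^[j]) x ≠ 0 → 0 ≤ ord v x →
    - j * loss v ≤ ord v ((D^[j]) x)

variable {k K : Type*} [Field k] [Field K] [Algebra k K] (Q : PlaceData k K)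

namespace PlaceData

/-- `x` vanishes to order at least `m` at `v` (true for `x = 0`). -/
def G (v : Q.Pl) (m : ℤ) (x : K) : Prop := x ≠ 0 → m ≤ Q.ord v x

variable {Q}
variable {v : Q.Pl} {m n : ℤ} {x y : K}

lemma G_zero : Q.G v m 0 := fun h => absurd rfl h

lemma G_mono (h : Q.G v m x) (hn : n ≤ m) : Q.G v n x := fun hx => hn.trans (h hx)

lemma G_mul (hx : Q.G v m x) (hy : Q.G v n y) : Q.G v (m + n) (x * y) := by
  intro h
  have hx0 : x ≠ 0 := left_ne_zero_of_mul h
  have hy0 : y ≠ 0 := right_ne_zero_of_mul h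
  rw [Q.ord_mul v x y hx0 hy0]
  exact add_le_add (hx hx0) (hy hy0)

lemma G_add (hx : Q.G v m x) (hy : Q.G v m y) : Q.G v m (x + y) := by
  intro h
  by_cases hx0 : x = 0
  · subst hx0
    rw [zero_add] at h ⊢
    exact hy h
  by_cases hy0 : y = 0
  · subst hy0
    rw [add_zero] at h ⊢
    exact hx h
  exact Q.ord_add v x y m hx0 hy0 h (hx hx0) (hy hy0)

lemma ord_one : Q.ord v 1 = 0 := by
  have := Q.ord_alg v 1 one_ne_zero
  rwa [map_one] at this

lemma G_one : Q.G v 0 (1 : K) := fun _ => by rw [ord_one]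

lemma G_alg (c : k) : Q.G v 0 (algebraMap k K c) := by
  intro h
  have hc : c ≠ 0 := by
    rintro rfl
    exact h (map_zero _)
  rw [Q.ord_alg v c hc]

lemma ord_neg (hx : x ≠ 0) : Q.ord v (-x) = Q.ord v x := by
  have h1 : (-x) = algebraMap k K (-1) * x := by simp
  rw [h1, Q.ord_mul v _ _ (by simp) hx, Q.ord_alg v _ (by simp), zero_add]

lemma G_neg (hx : Q.G v m x) : Q.G v m (-x) := by
  intro h
  have hx0 : x ≠ 0 := by simpa using h
  rw [ord_neg hx0]
  exact hx hx0

lemma G_sub (hx : Q.G v m x) (hy : Q.G v m y) : Q.G v m (x - y) := by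
  rw [sub_eq_add_neg]
  exact G_add hx (G_neg hy)

lemma G_sum {ι : Type*} (s : Finset ι) (f : ι → K) (h : ∀ i ∈ s, Q.G v m (f i)) :
    Q.G v m (∑ i ∈ s, f i) := by
  classical
  induction s using Finset.induction_on with
  | empty => simpa using G_zero
  | insert a s ha ih =>
    rw [Finset.sum_insert ha]
    exact G_add (h a (mem_insert_self a s)) (ih fun i hi => h i (mem_insert_of_mem hi))

lemma G_prod {ι : Type*} (s : Finset ι) (f : ι → K) (g : ι → ℤ) (h : ∀ i ∈ s, Q.G v (g i) (f i)) :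
    Q.G v (∑ i ∈ s, g i) (∏ i ∈ s, f i) := by
  classical
  induction s using Finset.induction_on with
  | empty => simpa using G_one
  | insert a s ha ih =>
    rw [Finset.sum_insert ha, Finset.prod_insert ha]
    exact G_mul (h a (mem_insert_self a s)) (ih fun i hi => h i (mem_insert_of_mem hi))

lemma G_pow (hx : Q.G v m x) (j : ℕ) : Q.G v (j * m) (x ^ j) := by
  induction j with
  | zero => simpa using G_one
  | succ j ih =>
    rw [pow_succ]
    have := G_mul ih hx
    refine G_mono this (le_of_eq ?_)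
    push_cast
    ring

lemma ord_pow (hx : x ≠ 0) (j : ℕ) : Q.ord v (x ^ j) = j * Q.ord v x := by
  induction j with
  | zero => simp [ord_one]
  | succ j ih =>
    rw [pow_succ, Q.ord_mul v _ _ (pow_ne_zero j hx) hx, ih]
    push_cast
    ring

lemma ord_inv (hx : x ≠ 0) : Q.ord v x⁻¹ = - Q.ord v x := by
  have h := Q.ord_mul v x x⁻¹ hx (inv_ne_zero hx)
  rw [mul_inv_cancel₀ hx, ord_one] at h
  linarith

lemma ord_div (hx : x ≠ 0) (hy : y ≠ 0) : Q.ord v (x / y) = Q.ord v x - Q.ord v y := by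
  rw [div_eq_mul_inv, Q.ord_mul v _ _ hx (inv_ne_zero hy), ord_inv hy]
  ring

lemma G_self : Q.G v (Q.ord v x) x := fun _ => le_rfl

lemma G_smul (c : k) (hx : Q.G v m x) : Q.G v m (c • x) := by
  rw [Algebra.smul_def]
  have := G_mul (G_alg (v := v) (Q := Q) c) hx
  rwa [zero_add] at this

lemma iter_D_zero (j : ℕ) : (Q.D^[j]) (0 : K) = 0 := by
  induction j with
  | zero => rfl
  | succ j ih => rw [Function.iterate_succ_apply', ih, map_zero]

lemma G_D (j : ℕ) (hx : Q.G v m x) : Q.G v (m - j - j * Q.loss v) ((Q.D^[j]) x) := by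
  intro h
  by_cases hx0 : x = 0
  · subst hx0
    exact absurd (iter_D_zero j) h
  exact Q.D_ord v x j m hx0 h (hx hx0)

lemma G_D' (j : ℕ) (hx : Q.G v 0 x) : Q.G v (- j * Q.loss v) ((Q.D^[j]) x) := by
  intro h
  by_cases hx0 : x = 0
  · subst hx0
    exact absurd (iter_D_zero j) h
  exact Q.D_ord' v x j hx0 h (hx hx0)

/-- Determinants with weighted entries. -/
lemma G_det {r : ℕ} (M : Matrix (Fin r) (Fin r) K) (α β : Fin r → ℤ)
    (h : ∀ i j, Q.G v (α i + β j) (M i j)) : Q.G v (∑ i, α i + ∑ j, β j) M.det := by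
  rw [Matrix.det_apply]
  apply G_sum
  intro σ _
  have h1 : Q.G v (∑ i, (α (σ i) + β i)) (∏ i, M (σ i) i) :=
    G_prod _ _ _ fun i _ => h (σ i) i
  have h2 : ∑ i, (α (σ i) + β i) = ∑ i, α i + ∑ j, β j := by
    rw [Finset.sum_add_distrib, Equiv.sum_comp σ α]
  rw [h2] at h1
  rcases Int.units_eq_one_or (Equiv.Perm.sign σ) with h3 | h3
  · rw [h3, one_smul]
    exact h1
  · rw [h3]
    simpa using G_neg h1

/-- The order of the pole of `z` at `v`. -/
noncomputable def pole (v : Q.Pl) (z : K) : ℤ := by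
  classical
  exact if z = 0 then 0 else max 0 (- Q.ord v z)

lemma pole_zero : Q.pole v 0 = 0 := by simp [pole]

lemma pole_of_ne (hx : x ≠ 0) : Q.pole v x = max 0 (- Q.ord v x) := by simp [pole, hx]

lemma pole_nonneg (v : Q.Pl) (x : K) : 0 ≤ Q.pole v x := by
  by_cases hx : x = 0
  · simp [hx, pole_zero]
  · rw [pole_of_ne hx]
    exact le_max_left _ _

lemma G_pole (v : Q.Pl) (x : K) : Q.G v (- Q.pole v x) x := by
  intro hx
  rw [pole_of_ne hx]
  have := le_max_right 0 (- Q.ord v x)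
  linarith

lemma G_of_pole_le (h : Q.pole v x ≤ m) : Q.G v (-m) x :=
  G_mono (G_pole v x) (by linarith)

lemma pole_le_of_G (hm : 0 ≤ m) (h : Q.G v (-m) x) : Q.pole v x ≤ m := by
  by_cases hx : x = 0
  · simp [hx, pole_zero, hm]
  · rw [pole_of_ne hx]
    have := h hx
    exact max_le hm (by linarith)

end PlaceData

end Pool.Agent.V7H78.RP.UB
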